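import Pool.Agent.H281F.Norm
import Pool.Agent.TH783.CE.Slice

/-!
# The pole relation is not defined by norm equations and unirational families

Let `K` be a number field and let `Q` be a rich set of rational primes, for example the primes
`p = 1 mod 4`. A *block* is a set of points with coordinates in `K` of one of the following kinds:
* a unirational set: a set which contains a Zariski dense set of values of a rational map over `K`
  (for example an affine space; a quadric, a cubic hypersurface, or a connected linear algebraic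
  group, as soon as it is known to be unirational);
* the set of the solutions of a multinorm equation `N(z₀) N(z₁) ⋯ N(z_r) = c`, where `z_i` is in a
  finite extension `L_i` of `K` (of any degree), `N` is the norm to `K` and `c ≠ 0`; it may be empty;
* the set of the points with `w ≠ 0` of a double cover `w² = f(z₁, …, z_n)`, `n ≥ 2`, `f` of degree
  at most four with smooth quartic hypersurface in `ℙⁿ` (as in the starting `QuarticDoubleCovers`).

We consider finite unions `U` of relations between `a, b ∈ K` of the following two kinds: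
* `∃ z, f(a, b, z) = 0`, where `f` has degree at most three in `(a, z)` (see `CubicEquations`);
* `a` is a value of a rational function at a point of a product of blocks; here the blocks (also
  their dimensions, the fields `L_i` and the constants `c`) and the rational function depend in an
  arbitrary way on `b`.

If for one `b` without pole above `Q`, for which all the sets in question are blocks, all `a` with
`U(a, b)` satisfy the pole relation (that is, have no pole above `Q`), then each relation of the
second kind holds only for finitely many `a`, the set of all `a` with `U(a, b)` is thin and it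
misses infinitely many rational integers. In particular `U` is not the relation `R_K` of the
problem.

The proof for the new blocks. The ring of the elements without pole above `Q` is flat: a rational
function in one variable (hence also in several variables) over `K` all of whose values are in the
ring is constant. If the multinorm equation has a solution `P`, all `P_i w_i^N / ν` are solutions,
where `ν` is the product of the norms of the `w_i` and `N` the sum of the degrees. They are Zariski
dense in the set of the solutions: if `Q` is a solution, then over the algebraic closure one can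
find conjugates of `w` whose `N`-th powers are the conjugates of `Q / P` and whose product is `1`.
-/

set_option autoImplicit false

namespace Pool.Agent.Results.MP_a59382_lc.NormEquations

open MvPolynomial Module Pool.Agent.TH766.HP Pool.Agent.TH783.CE

/-- The pole relation: `b` has a pole at every place of `K` above a prime of `Q` at which `a` has
a pole. -/
def PoleRel (K : Type) [Field K] [NumberField K] (Q : Set ℕ) (a b : K) : Prop :=
  ∀ v : IsDedekindDomain.HeightOneSpectrum (NumberField.RingOfIntegers K),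
    (∃ p : ℕ, p.Prime ∧ p ∈ Q ∧ ((p : NumberField.RingOfIntegers K) ∈ v.asIdeal)) →
      1 < v.valuation K a → 1 < v.valuation K b

/-- The set `S` is unirational over `K`: there are rational functions `u i / v` in finitely many
variables over `K` such that all the values `(u i (e) / v (e))_i`, `v (e) ≠ 0`, are in `S`, and
every polynomial which vanishes at all these values vanishes on `S`. -/
def UnirationalSet {K : Type} [Field K] {σ : Type} (S : Set (σ → K)) : Prop :=
  ∃ (κ : Type) (_ : Fintype κ) (u : σ → MvPolynomial κ K) (v : MvPolynomial κ K), v ≠ 0 ∧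
    (∀ e : κ → K, eval e v ≠ 0 → (fun i => eval e (u i) / eval e v) ∈ S) ∧
    ∀ g : MvPolynomial σ K,
      (∀ e : κ → K, eval e v ≠ 0 → eval (fun i => eval e (u i) / eval e v) g = 0) →
      ∀ x ∈ S, eval x g = 0

/-- The coordinates of the solutions of `N(z₀) N(z₁) ⋯ N(z_r) = c`: here `z_i` is in the finite
extension `L i` of `K` with basis `b i`, and `N` is the norm from `L i` to `K`. -/
def MultiNorm {K : Type} [Field K] {r : ℕ} {n : Fin (r + 1) → ℕ} (L : Fin (r + 1) → Type)
    [∀ i, Field (L i)] [∀ i, Algebra K (L i)] (b : ∀ i, Basis (Fin (n i)) K (L i)) (c : K) :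
    Set (((i : Fin (r + 1)) × Fin (n i)) → K) :=
  {x | ∏ i, Algebra.norm K (∑ s, x ⟨i, s⟩ • b i s) = c}

/-- The points `y = (w, z₁, …, z_n)` with coordinates in `K` and `w ≠ 0` of a double cover
`w² = F(1, z₁, …, z_n)`, where `n ≥ 2` and `F` is a form of degree four over `K` such that the
hypersurface `F = 0` in `ℙⁿ` is smooth. The vector `(1, z₁, …, z_n)` is `Function.update y 0 1`. -/
def QuarticCover {K : Type} [Field K] {n : ℕ} (T : Set (Fin (n + 1) → K)) : Prop :=
  2 ≤ n ∧ ∃ F : MvPolynomial (Fin (n + 1)) K, F.IsHomogeneous 4 ∧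
    (∀ y : Fin (n + 1) → AlgebraicClosure K, (∀ i, aeval y (pderiv i F) = 0) → y = 0) ∧
    T = {y | y 0 ^ 2 = eval (Function.update y 0 1) F ∧ y 0 ≠ 0}

/-- A block: a unirational set, the set of the solutions of a multinorm equation, or a quartic
double cover (up to the names of the coordinates). -/
def Block {K : Type} [Field K] {σ : Type} (S : Set (σ → K)) : Prop :=
  UnirationalSet S ∨
  (∃ (r : ℕ) (n : Fin (r + 1) → ℕ) (L : Fin (r + 1) → Type) (_ : ∀ i, Field (L i))
    (_ : ∀ i, Algebra K (L i)) (b : ∀ i, Basis (Fin (n i)) K (L i)) (c : K)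
    (e : ((i : Fin (r + 1)) × Fin (n i)) ≃ σ), c ≠ 0 ∧
    S = {x | (fun i => x (e i)) ∈ MultiNorm L b c}) ∨
  (∃ (n : ℕ) (T : Set (Fin (n + 1) → K)) (e : Fin (n + 1) ≃ σ), QuarticCover T ∧
    S = {x | (fun i => x (e i)) ∈ T})

/-- The values of `p / q` at the points `x = (x₁, …, x_r)` with `x_j ∈ S_j` for all `j` and
`q(x) ≠ 0`. -/
def values {K : Type} [Field K] {r : ℕ} {σ : Fin r → Type} (S : ∀ j, Set (σ j → K))
    (p q : MvPolynomial ((j : Fin r) × σ j) K) : Set K :=
  {t | ∃ x : (j : Fin r) × σ j → K, (∀ j, (fun i => x ⟨j, i⟩) ∈ S j) ∧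
    eval x q ≠ 0 ∧ t = eval x p / eval x q}

theorem Block.fcp {K : Type} [Field K] [CharZero K] {O : Set K} (hO : Flat O) (φ : K →+* ℂ)
    {σ : Type} {S : Set (σ → K)} (h : Block S) : Pool.Agent.Y718.FQ.FCP O S := by
  rcases h with h | ⟨r, n, L, _, _, b, c, e, hc, rfl⟩ | ⟨n, T, e, ⟨hn, F, hF, hs, hT⟩, rfl⟩
  · exact (H281F.Unirational.cp hO h).fcp
  · refine Pool.Agent.Y718.FQ.FCP.reindex ?_ e
    have : ∀ i, FiniteDimensional K (L i) := fun i => (b i).finiteDimensional_of_finite
    rcases H281F.multinorm L b c hc with h | h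
    · have h2 : MultiNorm L b c = ∅ := h
      rw [h2]
      exact Pool.Agent.Y718.FQ.FCP.of_finite Set.finite_empty
    · exact (H281F.Unirational.cp hO h).fcp
  · refine Pool.Agent.Y718.FQ.FCP.reindex ?_ e
    exact Pool.Agent.Y718.FQ.Blk.fcp Pool.Agent.Y48.FQ.seq Pool.Agent.Y349.FQ.mvf
      Pool.Agent.Y67.FQ.line Pool.Agent.Y718.FQ.bd hO φ (Or.inr ⟨hn, F, hF, hs, hT⟩)

theorem result :
    -- for every number field the relation `R_K` is not a finite union of such relations
    (∀ (K : Type) [Field K] [NumberField K]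
      (k : ℕ) (n : Fin k → ℕ) (f : ∀ i, MvPolynomial (Fin 2 ⊕ Fin (n i)) K),
      (∀ i, ∀ m ∈ (f i).support, m (Sum.inl 0) + ∑ j, m (Sum.inr j) ≤ 3) →
      ∀ (l : ℕ) (r : Fin l → ℕ) (σ : ∀ i, K → Fin (r i) → Type)
        (S : ∀ i, ∀ b : K, ∀ j, Set (σ i b j → K))
        (p q : ∀ i, ∀ b : K, MvPolynomial ((j : Fin (r i)) × σ i b j) K),
      (∃ b ∈ NoPole K {p | p % 4 = 1}, ∀ i j, Block (S i b j)) →
      ¬ ∀ a b : K, ((∃ i, ∃ z : Fin (n i) → K, eval (Sum.elim ![a, b] z) (f i) = 0) ∨
          ∃ i, a ∈ values (S i b) (p i b) (q i b)) ↔ PoleRel K {p | p % 4 = 1} a b) ∧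
    -- the general form, for every rich set of primes
    (∀ (K : Type) [Field K] [NumberField K] (Q : Set ℕ), Rich Q →
      ∀ (k : ℕ) (n : Fin k → ℕ) (f : ∀ i, MvPolynomial (Fin 2 ⊕ Fin (n i)) K),
      (∀ i, ∀ m ∈ (f i).support, m (Sum.inl 0) + ∑ j, m (Sum.inr j) ≤ 3) →
      ∀ (l : ℕ) (r : Fin l → ℕ) (σ : ∀ i, K → Fin (r i) → Type)
        (S : ∀ i, ∀ b : K, ∀ j, Set (σ i b j → K))
        (p q : ∀ i, ∀ b : K, MvPolynomial ((j : Fin (r i)) × σ i b j) K),
      ∀ b ∈ NoPole K Q, (∀ i j, Block (S i b j)) →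
      (∀ a : K, ((∃ i, ∃ z : Fin (n i) → K, eval (Sum.elim ![a, b] z) (f i) = 0) ∨
          ∃ i, a ∈ values (S i b) (p i b) (q i b)) → PoleRel K Q a b) →
      (∀ i, (values (S i b) (p i b) (q i b)).Finite) ∧
      Thin {a : K | (∃ i, ∃ z : Fin (n i) → K, eval (Sum.elim ![a, b] z) (f i) = 0) ∨
          ∃ i, a ∈ values (S i b) (p i b) (q i b)} ∧
      ∀ B : ℤ, ∃ m : ℤ, B < m ∧ PoleRel K Q (m : K) b ∧
        ¬ ((∃ i, ∃ z : Fin (n i) → K, eval (Sum.elim ![(m : K), b] z) (f i) = 0) ∨
          ∃ i, (m : K) ∈ values (S i b) (p i b) (q i b))) := by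
  have main : ∀ (K : Type) [Field K] [NumberField K] (Q : Set ℕ), Rich Q →
      ∀ (k : ℕ) (n : Fin k → ℕ) (f : ∀ i, MvPolynomial (Fin 2 ⊕ Fin (n i)) K),
      (∀ i, ∀ m ∈ (f i).support, m (Sum.inl 0) + ∑ j, m (Sum.inr j) ≤ 3) →
      ∀ (l : ℕ) (r : Fin l → ℕ) (σ : ∀ i, K → Fin (r i) → Type)
        (S : ∀ i, ∀ b : K, ∀ j, Set (σ i b j → K))
        (p q : ∀ i, ∀ b : K, MvPolynomial ((j : Fin (r i)) × σ i b j) K),
      ∀ b ∈ NoPole K Q, (∀ i j, Block (S i b j)) →
      (∀ a : K, ((∃ i, ∃ z : Fin (n i) → K, eval (Sum.elim ![a, b] z) (f i) = 0) ∨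
          ∃ i, a ∈ values (S i b) (p i b) (q i b)) → PoleRel K Q a b) →
      (∀ i, (values (S i b) (p i b) (q i b)).Finite) ∧
      Thin {a : K | (∃ i, ∃ z : Fin (n i) → K, eval (Sum.elim ![a, b] z) (f i) = 0) ∨
          ∃ i, a ∈ values (S i b) (p i b) (q i b)} ∧
      ∀ B : ℤ, ∃ m : ℤ, B < m ∧ PoleRel K Q (m : K) b ∧
        ¬ ((∃ i, ∃ z : Fin (n i) → K, eval (Sum.elim ![(m : K), b] z) (f i) = 0) ∨
          ∃ i, (m : K) ∈ values (S i b) (p i b) (q i b)) := by
    intro K _ _ Q hQ k n f hf l r σ S p q b hb hS h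
    obtain ⟨φ⟩ : Nonempty (K →+* ℂ) := inferInstance
    have hno : ∀ a : K, PoleRel K Q a b → a ∈ NoPole K Q := by
      intro a ha v hv
      by_contra hcon
      exact absurd (ha v hv (not_le.1 hcon)) (not_lt.2 (hb v hv))
    have hfin : ∀ i, (values (S i b) (p i b) (q i b)).Finite := fun i => by
      have h1 := Pool.Agent.Y718.FQ.FCP.pi Pool.Agent.Y394.FQ.pi
        (X := S i b) fun j => (hS i j).fcp (flat_noPole (K := K) hQ) φ
      exact h1.values (p i b) (q i b) fun x hx hq =>
        hno _ (h _ (Or.inr ⟨i, x, hx, hq, rfl⟩))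
    have hthin : Thin {a : K | (∃ i, ∃ z : Fin (n i) → K, eval (Sum.elim ![a, b] z) (f i) = 0) ∨
        ∃ i, a ∈ values (S i b) (p i b) (q i b)} := by
      have h1 := thin_union (flat_noPole (K := K) hQ) b f hf
        (fun a ha => hno a (h a (Or.inl ha)))
      have h2 : Thin (⋃ i, values (S i b) (p i b) (q i b)) :=
        Thin.of_finite (Set.finite_iUnion hfin)
      refine (h1.union h2).mono ?_
      rintro a (ha | ⟨i, ha⟩)
      · exact Or.inl ha
      · exact Or.inr (Set.mem_iUnion.2 ⟨i, ha⟩)
    refine ⟨hfin, hthin, fun B => ?_⟩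
    obtain ⟨m, hm, hm'⟩ := hthin.exists_int B
    refine ⟨m, hm, fun v _ hv' => ?_, hm'⟩
    exfalso
    have h1 : v.valuation K ((m : NumberField.RingOfIntegers K) : K) ≤ 1 :=
      v.valuation_le_one (K := K) (m : NumberField.RingOfIntegers K)
    have h2 : ((m : NumberField.RingOfIntegers K) : K) = (m : K) := by simp
    rw [h2] at h1
    exact absurd hv' (not_lt.2 h1)
  refine ⟨fun K _ _ k n f hf l r σ S p q ⟨b, hb, hS⟩ hiff => ?_, main⟩
  obtain ⟨-, -, h1⟩ := main K {p | p % 4 = 1} four k n f hf l r σ S p q b hb hS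
    fun a ha => (hiff a b).1 ha
  obtain ⟨m, -, hm1, hm2⟩ := h1 0
  exact hm2 ((hiff m b).2 hm1)

end Pool.Agent.Results.MP_a59382_lc.NormEquations
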